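import Mathlib

/-!
# Codegree Turán density of `K_{k+1}^k`: it tends to `1`, so it is not always `1/2`

Construction.  The vertices are split into `l` classes of almost equal sizes.  For a set `T` of
`K = k + 1` vertices with `t_j` elements in class `j`, class `i` is *good* if `t_i` is at least a
constant `θ` and some integer `z ≡ - c ∑ j t_j (mod K)` (where `c = l θ + 1`) lies in
`[t_0 + ... + t_{i-1} - 2 l θ, t_0 + ... + t_i)`.  Every such `T` has a good class (`exists_good`),
and for every `(k-1)`-set of type `r` there are at most three classes `j` which are good for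
`r + 2 e_j` (`card_J`), since along `j` the position `z` moves to the left in steps of `2 c` while
the intervals move to the right.

For every set `Q` of vertices choose a random colouring of the vertices with `m` colours.  A
`k`-set `S` is left out of the edges if for some class `i`, good for the type of `S` plus one more
element in class `i`, the part of `S` in class `i` misses a colour of the colouring of
`Q = S \ A_i` or has colour sum `0` (the Turán systems of Kim and Roush).  Every `(k+1)`-set
contains a `k`-set left out.  A `(k-1)`-set `R` together with a vertex `x` of class `j` is left out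
because of the class `i = j` only for three classes `j`, and because of a class `i ≠ j` only if the
colouring of `(R \ A_i) ∪ {x}` is exceptional for `R ∩ A_i`; these are independent events of small
probability for distinct `x`, and an exponential moment bound handles all pairs of sets at once
(`exists_colourings`).  So all codegrees are at least `(1 - 4 / l) n - O(1)`.
-/

set_option autoImplicit false

namespace Pool.Agent.Results.MP_af2786_co.DensityTendsToOne

open Finset Filter

/-! ### Definitions used in the statement -/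

/-- `E` is (the edge set of) a `k`-graph on the vertex set `V`. -/
def IsKGraph {V : Type} (k : ℕ) (E : Finset (Finset V)) : Prop := ∀ e ∈ E, e.card = k

/-- `E` contains a copy of `F`: some injection of the vertex set of `F` into the vertex set of `E`
sends every edge of `F` to an edge of `E`. -/
def Contains {V W : Type} (E : Finset (Finset V)) (F : Finset (Finset W)) : Prop :=
  ∃ f : W ↪ V, ∀ e ∈ F, e.map f ∈ E

/-- The codegree of `T`: the number of vertices `v ∉ T` with `T ∪ {v}` an edge. -/
def codeg {V : Type} [Fintype V] [DecidableEq V] (E : Finset (Finset V)) (T : Finset V) : ℕ :=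
  (univ.filter fun v => v ∉ T ∧ insert v T ∈ E).card

/-- The minimum codegree of a `k`-graph on `n` vertices, the minimum of the codegrees of the
`(k-1)`-sets. -/
noncomputable def minCodeg {V : Type} [Fintype V] [DecidableEq V] (k : ℕ)
    (E : Finset (Finset V)) : ℕ :=
  sInf {d | ∃ T : Finset V, T.card = k - 1 ∧ codeg E T = d}

/-- `ex_{k-1}(n, F)`: the largest minimum codegree of an `F`-free `k`-graph on `n` vertices. -/
noncomputable def exCodeg {W : Type} (k n : ℕ) (F : Finset (Finset W)) : ℕ :=
  sSup {d | ∃ E : Finset (Finset (Fin n)), IsKGraph k E ∧ ¬ Contains E F ∧ minCodeg k E = d}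

/-- The codegree Turán density `π_{k-1}(F) = limsup ex_{k-1}(n, F) / n`. -/
noncomputable def codegDensity {W : Type} (k : ℕ) (F : Finset (Finset W)) : ℝ :=
  limsup (fun n : ℕ => (exCodeg k n F : ℝ) / n) atTop

/-- The complete `k`-graph `K_t^k` on `t` vertices. -/
def complete (t k : ℕ) : Finset (Finset (Fin t)) := powersetCard k univ

/-! ### The choice of a class according to the type -/

/-- Number of elements in the classes before `i`. -/
def pre (t : ℕ → ℕ) (i : ℕ) : ℕ := ∑ j ∈ range i, t j

/-- Class `i` may be chosen for the type `t`. -/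
def Good (l θ K : ℕ) (t : ℕ → ℕ) (i : ℕ) : Prop :=
  θ ≤ t i ∧ ∃ z : ℤ, (K : ℤ) ∣ z + ((l * θ + 1 : ℕ) : ℤ) * ((∑ j ∈ range l, j * t j : ℕ) : ℤ) ∧
    (pre t i : ℤ) - 2 * l * θ ≤ z ∧ z < pre t (i + 1)

theorem pre_succ (t : ℕ → ℕ) (i : ℕ) : pre t (i + 1) = pre t i + t i := by
  simp [pre, sum_range_succ]

theorem pre_mono (t : ℕ → ℕ) {i j : ℕ} (h : i ≤ j) : pre t i ≤ pre t j := by
  unfold pre
  exact sum_le_sum_of_subset (range_subset_range.2 h)

theorem exists_good (l θ K : ℕ) (t : ℕ → ℕ) (hK : pre t l = K) (h0 : 0 < K) (hθ : 0 < θ)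
    (hlK : l * θ ≤ K) : ∃ i, i < l ∧ Good l θ K t i := by
  set w : ℤ := ((l * θ + 1 : ℕ) : ℤ) * ((∑ j ∈ range l, j * t j : ℕ) : ℤ) with hw
  set z₀ : ℤ := (-w) % K with hz₀
  have hK0 : (0 : ℤ) < K := by exact_mod_cast h0
  have hz1 : 0 ≤ z₀ := Int.emod_nonneg _ hK0.ne'
  have hz2 : z₀ < K := Int.emod_lt_of_pos _ hK0
  have hz3 : (K : ℤ) ∣ z₀ + w := by
    have : (-w) - z₀ = K * ((-w) / K) := by
      have := Int.emod_add_mul_ediv (-w) K
      linarith
    have h2 : z₀ + w = K * (-((-w) / K)) := by linarith
    rw [h2]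
    exact dvd_mul_right _ _
  have claim : ∀ i, (∀ j, j < i → θ ≤ t j → (pre t (j + 1) : ℤ) ≤ z₀) →
      (pre t i : ℤ) ≤ z₀ + i * θ := by
    intro i
    induction i with
    | zero => intro _; simp [pre, hz1]
    | succ i ih =>
      intro h
      have h1 := ih (fun j hj => h j (by omega))
      by_cases hi : θ ≤ t i
      · have h2 := h i (by omega) hi
        have : (0 : ℤ) ≤ ((i + 1 : ℕ) : ℤ) * θ := by positivity
        linarith
      · rw [pre_succ]
        push Not at hi
        push_cast
        have : (t i : ℤ) ≤ θ := by exact_mod_cast hi.le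
        linarith
  have claim2 : ∀ i, (∀ j, j < i → t j < θ) → pre t i ≤ i * θ := by
    intro i
    induction i with
    | zero => intro _; simp [pre]
    | succ i ih =>
      intro h
      have h1 := ih (fun j hj => h j (by omega))
      have h2 := h i (by omega)
      rw [pre_succ]
      have : (i + 1) * θ = i * θ + θ := by ring
      omega
  by_cases hc : ∃ i, i < l ∧ θ ≤ t i ∧ z₀ < (pre t (i + 1) : ℤ)
  · classical
    have hmin := fun j => Nat.find_min hc (m := j)
    obtain ⟨h1, h2, h3⟩ := Nat.find_spec hc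
    set i := Nat.find hc with hi
    refine ⟨i, h1, h2, z₀, hz3, ?_, h3⟩
    have h4 := claim i (fun j hj hjt => by
      by_contra hcon
      push Not at hcon
      exact hmin j hj ⟨by omega, hjt, hcon⟩)
    have h5 : (i : ℤ) * θ ≤ l * θ := by
      have : (i : ℤ) ≤ l := by exact_mod_cast h1.le
      nlinarith
    have h6 : (0 : ℤ) ≤ (l : ℤ) * θ := by positivity
    nlinarith
  · push Not at hc
    have h1 := claim l (fun j hj hjt => hc j hj hjt)
    rw [hK] at h1
    have hex : ∃ i, i < l ∧ θ ≤ t i := by
      by_contra hcon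
      push Not at hcon
      have hl : 0 < l := by
        rcases Nat.eq_zero_or_pos l with h | h
        · subst h
          simp [pre] at hK
          omega
        · exact h
      -- strict inequality
      have h2 := claim2 (l - 1) (fun j hj => hcon j (by omega))
      have h3 := hcon (l - 1) (by omega)
      have h4 : pre t l = pre t (l - 1) + t (l - 1) := by
        have := pre_succ t (l - 1)
        rwa [Nat.sub_add_cancel hl] at this
      have h5 : l * θ = (l - 1) * θ + θ := by
        obtain ⟨l', rfl⟩ := Nat.exists_eq_succ_of_ne_zero hl.ne'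
        simp [Nat.succ_mul]
      omega
    classical
    have hmin := fun j => Nat.find_min hex (m := j)
    obtain ⟨h2, h3⟩ := Nat.find_spec hex
    set i := Nat.find hex with hi
    refine ⟨i, h2, h3, z₀ - K, ?_, ?_, ?_⟩
    · have : z₀ - K + w = (z₀ + w) - K := by ring
      rw [this]
      exact dvd_sub hz3 dvd_rfl
    · have h4 := claim2 i (fun j hj => by
        by_contra hcon
        push Not at hcon
        exact hmin j hj ⟨by omega, hcon⟩)
      have h5 : (pre t i : ℤ) ≤ (i : ℤ) * θ := by exact_mod_cast h4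
      have h6 : (i : ℤ) * θ ≤ l * θ := by
        have : (i : ℤ) ≤ l := by exact_mod_cast h2.le
        nlinarith
      nlinarith
    · have : (0 : ℤ) ≤ (pre t (i + 1) : ℤ) := by positivity
      linarith

/-- The type `r + 2 e_j`. -/
def add2 (r : ℕ → ℕ) (j : ℕ) : ℕ → ℕ := fun a => r a + (if a = j then 2 else 0)

theorem pre_add2_self (r : ℕ → ℕ) (j : ℕ) : pre (add2 r j) j = pre r j := by
  unfold pre add2
  apply sum_congr rfl
  intro a ha
  rw [mem_range] at ha
  rw [if_neg (by omega)]
  rfl

theorem wsum_add2 (r : ℕ → ℕ) (l j : ℕ) (hj : j < l) :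
    ∑ a ∈ range l, a * (add2 r j a) = (∑ a ∈ range l, a * r a) + 2 * j := by
  unfold add2
  simp only [mul_add, sum_add_distrib, mul_ite, mul_zero, sum_ite_eq', mem_range]
  rw [if_pos hj]
  ring

theorem card_J (l θ K : ℕ) (r : ℕ → ℕ) (hK : pre r l + 2 = K)
    (hbig : 2 * l * (l * θ + 1) ≤ K) (hl : 0 < l) :
    {j | j < l ∧ Good l θ K (add2 r j) j}.ncard ≤ 3 := by
  classical
  set J : Finset ℕ := (range l).filter (fun j => Good l θ K (add2 r j) j) with hJ
  have hset : {j | j < l ∧ Good l θ K (add2 r j) j} = (J : Set ℕ) := by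
    ext j
    simp [hJ]
  rw [hset, Set.ncard_coe_finset]
  have hK0 : (0 : ℤ) < K := by
    have : 0 < K := by omega
    exact_mod_cast this
  set c : ℤ := ((l * θ + 1 : ℕ) : ℤ) with hc
  set w : ℤ := c * ((∑ a ∈ range l, a * r a : ℕ) : ℤ) with hw
  set φ : ℤ := (-w) % K with hφ
  have hφ1 : 0 ≤ φ := Int.emod_nonneg _ hK0.ne'
  have hφ2 : φ < K := Int.emod_lt_of_pos _ hK0
  have hφ3 : (K : ℤ) ∣ φ + w := by
    have : (-w) - φ = K * ((-w) / K) := by
      have := Int.emod_add_mul_ediv (-w) K
      linarith
    have h2 : φ + w = K * (-((-w) / K)) := by linarith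
    rw [h2]
    exact dvd_mul_right _ _
  have hcpos : 0 < c := by rw [hc]; positivity
  have hbig' : 2 * (l : ℤ) * c ≤ K := by
    rw [hc]
    exact_mod_cast hbig
  -- for j in J there is m
  have key : ∀ j ∈ J, ∃ m : ℤ, -1 ≤ m ∧ m ≤ 1 ∧
      (pre r j : ℤ) - 2 * l * θ ≤ φ - 2 * c * j + m * K ∧
      φ - 2 * c * j + m * K < pre r (j + 1) + 2 := by
    intro j hj
    rw [hJ, mem_filter, mem_range] at hj
    obtain ⟨hjl, hj1, z, hz1, hz2, hz3⟩ := hj
    rw [wsum_add2 r l j hjl] at hz1
    rw [pre_add2_self] at hz2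
    rw [pre_succ, pre_add2_self] at hz3
    have hz3' : z < (pre r (j + 1) : ℤ) + 2 := by
      rw [pre_succ]
      have : add2 r j j = r j + 2 := by simp [add2]
      rw [this] at hz3
      push_cast at hz3 ⊢
      linarith
    have hz4 : (K : ℤ) ∣ z - (φ - 2 * c * j) := by
      have h1 : z - (φ - 2 * c * j) =
          (z + ((l * θ + 1 : ℕ) : ℤ) * ((∑ a ∈ range l, a * r a + 2 * j : ℕ) : ℤ)) - (φ + w) := by
        rw [hw, hc]
        push_cast
        ring
      rw [h1]
      exact dvd_sub hz1 hφ3
    obtain ⟨m, hm⟩ := hz4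
    have hzm : z = φ - 2 * c * j + m * K := by linarith
    have hjl' : (j : ℤ) + 1 ≤ l := by exact_mod_cast hjl
    have hpre : (pre r (j + 1) : ℤ) + 2 ≤ K := by
      have h1 := pre_mono r (show j + 1 ≤ l by omega)
      have : pre r (j + 1) + 2 ≤ K := by omega
      exact_mod_cast this
    have hpre0 : (0 : ℤ) ≤ pre r j := by positivity
    have hj0 : (0 : ℤ) ≤ j := by positivity
    have hlθ : (2 : ℤ) * l * θ < K := by
      have h1 : (2 : ℤ) * l * θ ≤ 2 * l * (l * θ) := by
        have : (1 : ℤ) ≤ l := by exact_mod_cast hl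
        have h2 : (0 : ℤ) ≤ l * θ := by positivity
        nlinarith
      have h3 : (2 : ℤ) * l * (l * θ) < 2 * l * c := by
        rw [hc]
        push_cast
        have : (0 : ℤ) < l := by exact_mod_cast hl
        nlinarith
      linarith
    have hcj : 2 * c * j < K := by nlinarith
    have hcj0 : 0 ≤ 2 * c * j := by positivity
    refine ⟨m, ?_, ?_, ?_, ?_⟩
    · by_contra hcon
      push Not at hcon
      have h1 : m ≤ -2 := by omega
      have h2 : m * K ≤ -2 * K := by nlinarith
      linarith
    · by_contra hcon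
      push Not at hcon
      have h1 : 2 ≤ m := by omega
      have h2 : 2 * K ≤ m * K := by nlinarith
      linarith
    · rw [← hzm]; exact hz2
    · rw [← hzm]; exact hz3'
  choose! m hm1 hm2 hm3 hm4 using key
  have hlt : ∀ j ∈ J, ∀ j' ∈ J, m j = m j' → ¬ j < j' := by
    intro j hj j' hj' hmm hlt
    have h1 := hm4 j hj
    have h2 := hm3 j' hj'
    have h3 : (pre r (j + 1) : ℤ) ≤ pre r j' := by
      exact_mod_cast pre_mono r (show j + 1 ≤ j' by omega)
    have h4 : (j : ℤ) + 1 ≤ j' := by exact_mod_cast hlt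
    have h5 : 2 * c * ((j' : ℤ) - j) ≥ 2 * c := by nlinarith
    have h6 : 2 * c = 2 * l * θ + 2 := by rw [hc]; push_cast; ring
    rw [← hmm] at h2
    nlinarith
  have hinj : Set.InjOn m (J : Set ℕ) := by
    intro j hj j' hj' hmm
    rcases lt_trichotomy j j' with h | h | h
    · exact absurd h (hlt j hj j' hj' hmm)
    · exact h
    · exact absurd h (hlt j' hj' j hj hmm.symm)
  have hmaps : Set.MapsTo m (J : Set ℕ) ((Finset.Icc (-1 : ℤ) 1 : Finset ℤ) : Set ℤ) := by
    intro j hj
    simp only [coe_Icc, Set.mem_Icc]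
    exact ⟨hm1 j hj, hm2 j hj⟩
  have := card_le_card_of_injOn m hmaps hinj
  simpa using this

/-! ### Random Turán systems -/

section random

variable {V : Type} [Fintype V] [DecidableEq V]

/-- `P` is chosen by the colouring `c`: it misses a colour or its colours have sum `0`. -/
def Bad (m : ℕ) (c : V → ZMod m) (P : Finset V) : Prop :=
  (∃ a : ZMod m, ∀ v ∈ P, c v ≠ a) ∨ ∑ v ∈ P, c v = 0

omit [Fintype V] in
theorem exists_bad_erase (m : ℕ) (c : V → ZMod m) (P : Finset V) (hP : P.Nonempty) :
    ∃ v ∈ P, Bad m c (P.erase v) := by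
  by_cases h : ∃ a : ZMod m, ∀ v ∈ P, c v ≠ a
  · obtain ⟨a, ha⟩ := h
    obtain ⟨v, hv⟩ := hP
    exact ⟨v, hv, Or.inl ⟨a, fun w hw => ha w (mem_of_mem_erase hw)⟩⟩
  · push Not at h
    obtain ⟨v, hv, hva⟩ := h (∑ v ∈ P, c v)
    refine ⟨v, hv, Or.inr ?_⟩
    have := add_sum_erase P c hv
    rw [hva] at this
    simpa using this

theorem card_sum_zero (m : ℕ) [NeZero m] (P : Finset V) (hP : P.Nonempty) :
    m * (univ.filter fun c : V → ZMod m => ∑ v ∈ P, c v = 0).card
      = Fintype.card (V → ZMod m) := by
  classical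
  obtain ⟨v₀, hv₀⟩ := hP
  have h1 : ∀ a : ZMod m, (univ.filter fun c : V → ZMod m => ∑ v ∈ P, c v = a).card =
      (univ.filter fun c : V → ZMod m => ∑ v ∈ P, c v = 0).card := by
    intro a
    apply card_bij (fun c _ => c - Pi.single v₀ a)
    · intro c hc
      simp only [mem_filter, mem_univ, true_and] at hc ⊢
      simp only [Pi.sub_apply, sum_sub_distrib, hc]
      rw [sum_eq_single v₀ (by intro b _ hb; simp [Pi.single_eq_of_ne hb])
        (by intro h; exact absurd hv₀ h)]
      simp
    · intro c _ c' _ h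
      exact sub_left_injective h
    · intro c hc
      refine ⟨c + Pi.single v₀ a, ?_, by simp⟩
      simp only [mem_filter, mem_univ, true_and] at hc ⊢
      simp only [Pi.add_apply, sum_add_distrib, hc]
      rw [sum_eq_single v₀ (by intro b _ hb; simp [Pi.single_eq_of_ne hb])
        (by intro h; exact absurd hv₀ h)]
      simp
  have h2 := card_eq_sum_card_fiberwise (s := (univ : Finset (V → ZMod m)))
    (t := (univ : Finset (ZMod m))) (f := fun c => ∑ v ∈ P, c v) (by simp)
  rw [card_univ] at h2
  rw [h2, sum_congr rfl (fun a _ => h1 a)]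
  simp [ZMod.card]

theorem card_miss (m : ℕ) [NeZero m] (P : Finset V) (a : ZMod m) :
    (univ.filter fun c : V → ZMod m => ∀ v ∈ P, c v ≠ a).card
      = (m - 1) ^ P.card * m ^ (Fintype.card V - P.card) := by
  classical
  have h : (univ.filter fun c : V → ZMod m => ∀ v ∈ P, c v ≠ a)
      = Fintype.piFinset (fun v => if v ∈ P then univ.erase a else univ) := by
    ext c
    simp only [mem_filter, mem_univ, true_and, Fintype.mem_piFinset]
    constructor
    · intro h v
      split_ifs with hv
      · simp [h v hv]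
      · simp
    · intro h v hv
      have := h v
      rw [if_pos hv] at this
      simpa using this
  rw [h, Fintype.card_piFinset]
  have h2 : ∀ v : V, (if v ∈ P then (univ : Finset (ZMod m)).erase a else univ).card
      = if v ∈ P then m - 1 else m := by
    intro v
    split_ifs <;> simp [card_erase_of_mem, ZMod.card]
  rw [prod_congr rfl (fun v _ => h2 v), prod_ite]
  simp only [prod_const]
  congr 2
  · congr 1
    ext v; simp
  · rw [← card_compl]
    congr 1
    ext v; simp

/-- For large `p`, the proportion of colourings choosing a given set with at least `p` elements is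
at most `2 / m`. -/
theorem card_bad (m : ℕ) [NeZero m] : ∃ p₀ : ℕ, 0 < p₀ ∧ ∀ (V : Type) [Fintype V] [DecidableEq V]
    (P : Finset V), p₀ ≤ P.card →
    m * {c : V → ZMod m | Bad m c P}.ncard ≤ 2 * Fintype.card (V → ZMod m) := by
  classical
  have hm : 0 < m := Nat.pos_of_ne_zero (NeZero.ne m)
  -- m * m * (m-1)^p ≤ m^p for large p
  obtain ⟨p₀, hp0, hp⟩ : ∃ p₀ : ℕ, 0 < p₀ ∧ ∀ p, p₀ ≤ p → m * m * (m - 1) ^ p ≤ m ^ p := by
    have h1 : Tendsto (fun p : ℕ => ((m - 1 : ℕ) / (m : ℝ)) ^ p) atTop (nhds 0) := by
      apply tendsto_pow_atTop_nhds_zero_of_lt_one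
      · positivity
      · rw [div_lt_one (by exact_mod_cast hm)]
        exact_mod_cast (by omega : m - 1 < m)
    have h2 : ∀ᶠ p : ℕ in atTop, ((m - 1 : ℕ) / (m : ℝ)) ^ p < 1 / (m * m) :=
      h1.eventually (gt_mem_nhds (by positivity))
    obtain ⟨p₀, hp₀⟩ := eventually_atTop.1 h2
    refine ⟨p₀ + 1, by omega, fun p hp => ?_⟩
    have h3 := (hp₀ p (by omega)).le
    have hmr : (0 : ℝ) < m := by exact_mod_cast hm
    rw [div_pow, div_le_div_iff₀ (by positivity) (by positivity)] at h3
    have : ((m * m * (m - 1) ^ p : ℕ) : ℝ) ≤ ((m ^ p : ℕ) : ℝ) := by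
      push_cast
      linarith
    exact_mod_cast this
  refine ⟨p₀, hp0, ?_⟩
  intro V _ _ P hP
  have hPn : P.Nonempty := by
    rw [← card_pos]; omega
  have hcard : Fintype.card (V → ZMod m) = m ^ (Fintype.card V) := by
    rw [Fintype.card_fun, ZMod.card]
  have hle : {c : V → ZMod m | Bad m c P}.ncard ≤
      m * ((m - 1) ^ P.card * m ^ (Fintype.card V - P.card)) +
        (univ.filter fun c : V → ZMod m => ∑ v ∈ P, c v = 0).card := by
    have hset : {c : V → ZMod m | Bad m c P} ⊆
        (((univ : Finset (ZMod m)).biUnion (fun a => univ.filter fun c : V → ZMod m =>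
          ∀ v ∈ P, c v ≠ a)) ∪ (univ.filter fun c : V → ZMod m => ∑ v ∈ P, c v = 0) :
            Finset (V → ZMod m)) := by
      intro c hc
      simp only [coe_union, coe_biUnion, coe_filter, mem_univ, true_and, Set.mem_union]
      rcases hc with ⟨a, ha⟩ | h
      · left
        simp only [coe_univ, Set.mem_iUnion, Set.mem_univ]
        exact ⟨a, trivial, ha⟩
      · right
        exact h
    refine (Set.ncard_le_ncard hset (Finset.finite_toSet _)).trans ?_
    rw [Set.ncard_coe_finset]
    refine (card_union_le _ _).trans ?_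
    gcongr
    refine card_biUnion_le.trans ?_
    rw [sum_congr rfl (fun a _ => card_miss m P a)]
    simp [ZMod.card]
  have h0 := card_sum_zero m P hPn
  have h1 := hp P.card hP
  have hPV : P.card ≤ Fintype.card V := card_le_univ P
  calc m * {c : V → ZMod m | Bad m c P}.ncard
      ≤ m * (m * ((m - 1) ^ P.card * m ^ (Fintype.card V - P.card)) +
        (univ.filter fun c : V → ZMod m => ∑ v ∈ P, c v = 0).card) := by gcongr
    _ = (m * m * (m - 1) ^ P.card) * m ^ (Fintype.card V - P.card) +
        Fintype.card (V → ZMod m) := by rw [← h0]; ring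
    _ ≤ m ^ P.card * m ^ (Fintype.card V - P.card) + Fintype.card (V → ZMod m) := by gcongr
    _ = 2 * Fintype.card (V → ZMod m) := by
        rw [hcard, ← pow_add, Nat.add_sub_cancel' hPV]
        ring

/-- The vertices `x` outside `Q` for which the colouring of `Q ∪ {x}` chooses `P`. -/
noncomputable def hits (m : ℕ) (κ : Finset V → V → ZMod m) (P Q : Finset V) : ℕ :=
  {x : V | x ∉ Q ∧ Bad m (κ (insert x Q)) P}.ncard

theorem sum_hits (m : ℕ) [NeZero m] (C : ℕ) (P Q : Finset V)
    (hP : C * {c : V → ZMod m | Bad m c P}.ncard ≤ Fintype.card (V → ZMod m)) :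
    ∑ κ : Finset V → V → ZMod m, C ^ hits m κ P Q ≤
      Fintype.card (Finset V → V → ZMod m) * 2 ^ Fintype.card V := by
  classical
  set 𝒬 : Finset (Finset V) := (Qᶜ).image (fun x => insert x Q) with h𝒬
  have hinj : Set.InjOn (fun x => insert x Q) ((Qᶜ : Finset V) : Set V) := by
    intro x hx y hy hxy
    simp only [coe_compl, Set.mem_compl_iff, mem_coe] at hx hy
    have h1 : x ∈ insert y Q := by
      have : x ∈ insert x Q := mem_insert_self x Q
      simp only at hxy
      rwa [hxy] at this
    rcases mem_insert.1 h1 with h | h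
    · exact h
    · exact absurd h hx
  have hpow : ∀ κ : Finset V → V → ZMod m, C ^ hits m κ P Q =
      ∏ S : Finset V, (if S ∈ 𝒬 then (if Bad m (κ S) P then C else 1) else 1) := by
    intro κ
    rw [prod_ite_mem, univ_inter, h𝒬, prod_image hinj]
    rw [prod_ite, prod_const, prod_const_one, mul_one]
    congr 1
    unfold hits
    rw [← Set.ncard_coe_finset]
    congr 1
    ext x
    simp
  rw [sum_congr rfl (fun κ _ => hpow κ)]
  have hps : ∑ κ : Finset V → V → ZMod m,
      ∏ S : Finset V, (if S ∈ 𝒬 then (if Bad m (κ S) P then C else 1) else 1) =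
      ∏ S : Finset V, ∑ c : V → ZMod m, (if S ∈ 𝒬 then (if Bad m c P then C else 1) else 1) := by
    rw [prod_univ_sum]
    simp
  rw [hps]
  have hS : ∀ S : Finset V, ∑ c : V → ZMod m, (if S ∈ 𝒬 then (if Bad m c P then C else 1) else 1)
      ≤ Fintype.card (V → ZMod m) * (if S ∈ 𝒬 then 2 else 1) := by
    intro S
    by_cases hSQ : S ∈ 𝒬
    · simp only [if_pos hSQ]
      have h1 : ∑ c : V → ZMod m, (if Bad m c P then C else 1) ≤
          C * {c : V → ZMod m | Bad m c P}.ncard + Fintype.card (V → ZMod m) := by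
        have h2 : ∀ c : V → ZMod m, (if Bad m c P then C else 1) ≤
            (if Bad m c P then C else 0) + 1 := by
          intro c; split_ifs <;> omega
        refine (sum_le_sum (fun c _ => h2 c)).trans ?_
        rw [sum_add_distrib]
        gcongr
        · rw [← sum_filter, sum_const, smul_eq_mul, mul_comm]
          gcongr
          rw [← Set.ncard_coe_finset]
          simp
        · simp
      omega
    · simp only [if_neg hSQ]
      simp
  refine (prod_le_prod' (fun S _ => hS S)).trans ?_
  rw [prod_mul_distrib, prod_const, prod_ite_mem, univ_inter, prod_const]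
  have h3 : 𝒬.card ≤ Fintype.card V := card_image_le.trans (card_le_univ _)
  rw [card_univ, ← Fintype.card_fun]
  gcongr
  norm_num

theorem exists_colourings (m : ℕ) [NeZero m] (C p₀ : ℕ)
    (hP : ∀ P : Finset V, p₀ ≤ P.card →
      C * {c : V → ZMod m | Bad m c P}.ncard ≤ Fintype.card (V → ZMod m)) :
    ∃ κ : Finset V → V → ZMod m, ∀ P Q : Finset V, p₀ ≤ P.card →
      C ^ hits m κ P Q ≤ 8 ^ Fintype.card V := by
  classical
  by_contra hcon
  push Not at hcon
  have h1 : ∀ κ : Finset V → V → ZMod m, 8 ^ Fintype.card V <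
      ∑ P : Finset V, ∑ Q : Finset V, (if p₀ ≤ P.card then C ^ hits m κ P Q else 0) := by
    intro κ
    obtain ⟨P, Q, h2, h3⟩ := hcon κ
    refine h3.trans_le ?_
    have h4 : C ^ hits m κ P Q ≤ ∑ Q : Finset V, (if p₀ ≤ P.card then C ^ hits m κ P Q else 0) := by
      refine le_trans ?_ (single_le_sum (fun Q _ => Nat.zero_le _) (mem_univ Q))
      rw [if_pos h2]
    exact h4.trans (single_le_sum (f := fun P => ∑ Q : Finset V,
      (if p₀ ≤ P.card then C ^ hits m κ P Q else 0)) (fun Q _ => Nat.zero_le _) (mem_univ P))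
  have h2 : Fintype.card (Finset V → V → ZMod m) * 8 ^ Fintype.card V <
      ∑ κ : Finset V → V → ZMod m, ∑ P : Finset V, ∑ Q : Finset V,
        (if p₀ ≤ P.card then C ^ hits m κ P Q else 0) := by
    rw [← card_univ, ← smul_eq_mul, ← sum_const]
    exact sum_lt_sum_of_nonempty univ_nonempty (fun κ _ => h1 κ)
  have h3 : ∑ κ : Finset V → V → ZMod m, ∑ P : Finset V, ∑ Q : Finset V,
        (if p₀ ≤ P.card then C ^ hits m κ P Q else 0) ≤
      ∑ P : Finset V, ∑ Q : Finset V,
        Fintype.card (Finset V → V → ZMod m) * 2 ^ Fintype.card V := by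
    rw [sum_comm]
    apply sum_le_sum
    intro P _
    rw [sum_comm]
    apply sum_le_sum
    intro Q _
    by_cases hp : p₀ ≤ P.card
    · simp only [if_pos hp]
      exact sum_hits m C P Q (hP P hp)
    · simp [if_neg hp]
  rw [sum_const, sum_const, card_univ, Fintype.card_finset] at h3
  simp only [smul_eq_mul] at h3
  have h4 : 2 ^ Fintype.card V * (2 ^ Fintype.card V *
      (Fintype.card (Finset V → V → ZMod m) * 2 ^ Fintype.card V)) =
      Fintype.card (Finset V → V → ZMod m) * 8 ^ Fintype.card V := by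
    rw [show (8 : ℕ) = 2 * 2 * 2 by norm_num, mul_pow, mul_pow]
    ring
  omega

end random

/-! ### The construction -/

/-- The class of a vertex. -/
def cls {n : ℕ} (l : ℕ) (v : Fin n) : ℕ := v.val % l

/-- The type of a set: the numbers of its elements in the classes. -/
def typ {n : ℕ} (l : ℕ) (S : Finset (Fin n)) (i : ℕ) : ℕ := (S.filter fun v => cls l v = i).card

theorem pre_typ {n : ℕ} (l : ℕ) (hl : 0 < l) (S : Finset (Fin n)) : pre (typ l S) l = S.card := by
  unfold pre typ
  symm
  apply card_eq_sum_card_fiberwise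
  intro v _
  simp only [coe_range, Set.mem_Iio]
  exact Nat.mod_lt _ hl

theorem typ_insert {n : ℕ} (l : ℕ) (S : Finset (Fin n)) (x : Fin n) (hx : x ∉ S) (i : ℕ) :
    typ l (insert x S) i = typ l S i + (if i = cls l x then 1 else 0) := by
  unfold typ
  rw [filter_insert]
  by_cases h : cls l x = i
  · rw [if_pos h, if_pos h.symm, card_insert_of_notMem (by simp [hx])]
  · rw [if_neg h, if_neg (Ne.symm h)]
    rfl

/-- The set `S` is left out of the edges. -/
def Blue {n : ℕ} (l θ K m : ℕ) (κ : Finset (Fin n) → Fin n → ZMod m) (S : Finset (Fin n)) : Prop :=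
  ∃ i, i < l ∧ Good l θ K (fun a => typ l S a + (if a = i then 1 else 0)) i ∧
    Bad m (κ (S.filter fun v => cls l v ≠ i)) (S.filter fun v => cls l v = i)

theorem exists_blue {n : ℕ} (l θ K m : ℕ) (κ : Finset (Fin n) → Fin n → ZMod m)
    (T : Finset (Fin n)) (hT : T.card = K) (hl : 0 < l) (hθ : 0 < θ) (hK : 0 < K)
    (hlK : l * θ ≤ K) : ∃ v ∈ T, Blue l θ K m κ (T.erase v) := by
  obtain ⟨i, hi, hG⟩ := exists_good l θ K (typ l T) (by rw [pre_typ l hl, hT]) hK hθ hlK
  have hne : (T.filter fun v => cls l v = i).Nonempty := by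
    rw [← card_pos]
    exact lt_of_lt_of_le hθ hG.1
  obtain ⟨v, hv, hB⟩ := exists_bad_erase m (κ (T.filter fun v => cls l v ≠ i)) _ hne
  rw [mem_filter] at hv
  refine ⟨v, hv.1, i, hi, ?_, ?_⟩
  · have : (fun a => typ l (T.erase v) a + (if a = i then 1 else 0)) = typ l T := by
      funext a
      have := typ_insert l (T.erase v) v (by simp) a
      rw [insert_erase hv.1, hv.2] at this
      exact this.symm
    rw [this]
    exact hG
  · have h1 : ((T.erase v).filter fun w => cls l w ≠ i) = T.filter fun w => cls l w ≠ i := by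
      ext w
      simp only [mem_filter, mem_erase]
      constructor
      · rintro ⟨⟨_, h⟩, h'⟩
        exact ⟨h, h'⟩
      · rintro ⟨h, h'⟩
        refine ⟨⟨?_, h⟩, h'⟩
        rintro rfl
        exact h' hv.2
    have h2 : ((T.erase v).filter fun w => cls l w = i) =
        (T.filter fun w => cls l w = i).erase v := by
      ext w
      simp only [mem_filter, mem_erase]
      tauto
    rw [h1, h2]
    exact hB

theorem card_cls {n : ℕ} (l j : ℕ) :
    (univ.filter fun v : Fin n => cls l v = j).card ≤ n / l + 1 := by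
  have : (univ.filter fun v : Fin n => cls l v = j).card ≤ (range (n / l + 1)).card := by
    apply card_le_card_of_injOn (fun v => v.val / l)
    · intro v _
      simp only [coe_range, Set.mem_Iio]
      have := Nat.div_le_div_right (c := l) v.isLt.le
      omega
    · intro v hv w hw h
      replace hv : v.val % l = j := (mem_filter.1 (mem_coe.1 hv)).2
      replace hw : w.val % l = j := (mem_filter.1 (mem_coe.1 hw)).2
      simp only at h
      have h1 := Nat.div_add_mod v.val l
      have h2 := Nat.div_add_mod w.val l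
      rw [h, hv] at h1
      rw [hw] at h2
      exact Fin.ext (by omega)
  simpa using this

/-- The blue codegree of a `(k-1)`-set is small. -/
theorem card_blue {n : ℕ} (l θ K m L : ℕ) (κ : Finset (Fin n) → Fin n → ZMod m)
    (R : Finset (Fin n)) (hR : R.card + 2 = K) (hl : 0 < l)
    (hbig : 2 * l * (l * (θ + 1) + 1) ≤ K)
    (hκ : ∀ P Q : Finset (Fin n), θ ≤ P.card → L * hits m κ P Q ≤ n) (hL : 0 < L) :
    {x : Fin n | x ∉ R ∧ Blue l (θ + 1) K m κ (insert x R)}.ncard ≤
      3 * (n / l + 1) + l * (n / L) := by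
  classical
  set J : Finset ℕ := (range l).filter (fun j => Good l (θ + 1) K (add2 (typ l R) j) j) with hJ
  have hJcard : J.card ≤ 3 := by
    have := card_J l (θ + 1) K (typ l R) (by rw [pre_typ l hl, hR]) hbig hl
    have hset : {j | j < l ∧ Good l (θ + 1) K (add2 (typ l R) j) j} = (J : Set ℕ) := by
      ext j
      simp [hJ]
    rwa [hset, Set.ncard_coe_finset] at this
  set I : Finset ℕ := (range l).filter (fun i => θ ≤ typ l R i) with hI
  set H : ℕ → Finset (Fin n) := fun i => univ.filter (fun x =>
    x ∉ (R.filter fun v => cls l v ≠ i) ∧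
      Bad m (κ (insert x (R.filter fun v => cls l v ≠ i))) (R.filter fun v => cls l v = i)) with hH
  have hsub : {x : Fin n | x ∉ R ∧ Blue l (θ + 1) K m κ (insert x R)} ⊆
      ((J.biUnion fun j => univ.filter fun v : Fin n => cls l v = j) ∪ (I.biUnion H) :
        Finset (Fin n)) := by
    rintro x ⟨hxR, i, hi, hG, hB⟩
    have htyp : (fun a => typ l (insert x R) a + (if a = i then 1 else 0)) =
        fun a => typ l R a + (if a = cls l x then 1 else 0) + (if a = i then 1 else 0) := by
      funext a
      rw [typ_insert l R x hxR a]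
    rw [htyp] at hG
    simp only [coe_union, Set.mem_union, mem_coe, mem_biUnion, mem_filter, mem_univ, true_and]
    by_cases hxi : cls l x = i
    · left
      refine ⟨i, ?_, hxi⟩
      rw [hJ, mem_filter, mem_range]
      refine ⟨hi, ?_⟩
      have : add2 (typ l R) i =
          fun a => typ l R a + (if a = cls l x then 1 else 0) + (if a = i then 1 else 0) := by
        funext a
        unfold add2
        rw [hxi]
        split_ifs <;> rfl
      rw [this]
      exact hG
    · right
      refine ⟨i, ?_, ?_⟩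
      · rw [hI, mem_filter, mem_range]
        refine ⟨hi, ?_⟩
        have h1 : θ + 1 ≤ typ l R i + (if i = cls l x then 1 else 0) + (if i = i then 1 else 0) :=
          hG.1
        rw [if_neg (Ne.symm hxi), if_pos rfl] at h1
        omega
      · rw [hH]
        simp only [mem_filter, mem_univ, true_and]
        have h1 : ((insert x R).filter fun v => cls l v ≠ i) =
            insert x (R.filter fun v => cls l v ≠ i) := by
          rw [filter_insert, if_pos hxi]
        have h2 : ((insert x R).filter fun v => cls l v = i) = R.filter fun v => cls l v = i := by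
          rw [filter_insert, if_neg hxi]
        rw [h1, h2] at hB
        refine ⟨?_, hB⟩
        intro h
        exact hxR h.1
  refine (Set.ncard_le_ncard hsub (Finset.finite_toSet _)).trans ?_
  rw [Set.ncard_coe_finset]
  refine (card_union_le _ _).trans ?_
  apply add_le_add
  · refine (card_biUnion_le_card_mul J _ (n / l + 1) (fun j _ => card_cls l j)).trans ?_
    gcongr
  · refine (card_biUnion_le_card_mul I H (n / L) ?_).trans ?_
    · intro i hi
      rw [hI, mem_filter] at hi
      have h1 := hκ (R.filter fun v => cls l v = i) (R.filter fun v => cls l v ≠ i) hi.2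
      rw [Nat.le_div_iff_mul_le hL, mul_comm]
      refine le_trans ?_ h1
      gcongr
      unfold hits
      rw [← Set.ncard_coe_finset]
      apply le_of_eq
      congr 1
      ext x
      simp [hH]
    · gcongr
      exact (card_filter_le _ _).trans (by simp)

/-- For every `l > 0` and all large `k` there are, for all `n`, `K_{k+1}^k`-free `k`-graphs with
large minimum codegree. -/
theorem exists_graph (l : ℕ) (hl : 0 < l) : ∃ k₀ : ℕ, 2 ≤ k₀ ∧ ∀ k, k₀ ≤ k → ∀ n : ℕ,
    ∃ E : Finset (Finset (Fin n)), IsKGraph k E ∧ ¬ Contains E (complete (k + 1) k) ∧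
      ∀ T : Finset (Fin n), T.card = k - 1 → n ≤ codeg E T + (k + 2 + 4 * (n / l)) := by
  classical
  set L := l * l with hL
  have hL0 : 0 < L := Nat.mul_pos hl hl
  set C := 8 ^ L with hC
  have : NeZero (2 * C) := ⟨by rw [hC]; positivity⟩
  obtain ⟨p₀, hp0, hp⟩ := card_bad (2 * C)
  refine ⟨2 * l * (l * (p₀ + 1) + 1) + 2, by omega, ?_⟩
  intro k hk n
  have hPC : ∀ P : Finset (Fin n), p₀ ≤ P.card →
      C * {c : Fin n → ZMod (2 * C) | Bad (2 * C) c P}.ncard ≤
        Fintype.card (Fin n → ZMod (2 * C)) := by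
    intro P hP
    have := hp (Fin n) P hP
    nlinarith
  obtain ⟨κ, hκ⟩ := exists_colourings (V := Fin n) (2 * C) C p₀ hPC
  have hκ' : ∀ P Q : Finset (Fin n), p₀ ≤ P.card → L * hits (2 * C) κ P Q ≤ n := by
    intro P Q hP
    have h0 := hκ P Q hP
    rw [Fintype.card_fin] at h0
    have h1 : (8 ^ L) ^ hits (2 * C) κ P Q ≤ 8 ^ n := h0
    rw [← pow_mul] at h1
    exact (Nat.pow_le_pow_iff_right (by norm_num)).1 h1
  refine ⟨univ.filter (fun S => S.card = k ∧ ¬ Blue l (p₀ + 1) (k + 1) (2 * C) κ S), ?_, ?_, ?_⟩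
  · intro e he
    exact (mem_filter.1 he).2.1
  · rintro ⟨f, hf⟩
    have hT : ((univ : Finset (Fin (k + 1))).map f).card = k + 1 := by simp
    have hlK : l * (p₀ + 1) ≤ k + 1 := by
      have : 1 * (l * (p₀ + 1)) ≤ 2 * l * (l * (p₀ + 1) + 1) :=
        Nat.mul_le_mul (by omega) (by omega)
      omega
    obtain ⟨v, hv, hB⟩ := exists_blue l (p₀ + 1) (k + 1) (2 * C) κ _ hT hl (by omega) (by omega) hlK
    rw [Finset.mem_map] at hv
    obtain ⟨a, _, rfl⟩ := hv
    have h1 := hf (univ.erase a) (by
      unfold complete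
      rw [mem_powersetCard]
      exact ⟨subset_univ _, by simp⟩)
    rw [map_erase] at h1
    exact (mem_filter.1 h1).2.2 hB
  · intro T hT
    have hk0 : 0 < k := by omega
    have hbl := card_blue l p₀ (k + 1) (2 * C) L κ T (by omega) hl (by omega) hκ' hL0
    have hdiv : l * (n / L) ≤ n / l := by
      rw [hL, ← Nat.div_div_eq_div_mul]
      exact Nat.mul_div_le _ _
    have huniv : (univ : Finset (Fin n)) ⊆ T ∪
        ((univ.filter fun v => v ∉ T ∧ insert v T ∈ univ.filter
          (fun S : Finset (Fin n) => S.card = k ∧ ¬ Blue l (p₀ + 1) (k + 1) (2 * C) κ S)) ∪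
        (univ.filter fun x => x ∉ T ∧ Blue l (p₀ + 1) (k + 1) (2 * C) κ (insert x T))) := by
      intro x _
      simp only [mem_union, mem_filter, mem_univ, true_and]
      by_cases hx : x ∈ T
      · exact Or.inl hx
      · right
        by_cases hb : Blue l (p₀ + 1) (k + 1) (2 * C) κ (insert x T)
        · exact Or.inr ⟨hx, hb⟩
        · left
          refine ⟨hx, ?_, hb⟩
          rw [card_insert_of_notMem hx, hT]
          omega
    have h1 := card_le_card huniv
    rw [card_univ, Fintype.card_fin] at h1
    have h2 := h1.trans ((card_union_le _ _).trans (Nat.add_le_add_left (card_union_le _ _) _))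
    have h3 : (univ.filter fun x => x ∉ T ∧ Blue l (p₀ + 1) (k + 1) (2 * C) κ (insert x T)).card ≤
        3 * (n / l + 1) + l * (n / L) := by
      rw [← Set.ncard_coe_finset]
      refine le_trans (le_of_eq ?_) hbl
      congr 1
      ext x
      simp
    unfold codeg
    omega

/-! ### The densities -/

theorem minCodeg_le_codeg {n : ℕ} (k : ℕ) (E : Finset (Finset (Fin n))) (T : Finset (Fin n))
    (hT : T.card = k - 1) : minCodeg k E ≤ codeg E T :=
  Nat.sInf_le ⟨T, hT, rfl⟩

theorem minCodeg_le {n : ℕ} (k : ℕ) (E : Finset (Finset (Fin n))) : minCodeg k E ≤ n := by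
  by_cases h : ∃ T : Finset (Fin n), T.card = k - 1
  · obtain ⟨T, hT⟩ := h
    refine (minCodeg_le_codeg k E T hT).trans ?_
    unfold codeg
    exact (card_le_univ _).trans (by simp)
  · have : {d | ∃ T : Finset (Fin n), T.card = k - 1 ∧ codeg E T = d} = ∅ := by
      ext d
      constructor
      · rintro ⟨T, hT, _⟩
        exact absurd ⟨T, hT⟩ h
      · rintro ⟨⟩
    unfold minCodeg
    rw [this]
    simp

theorem exCodeg_le {W : Type} (k n : ℕ) (F : Finset (Finset W)) : exCodeg k n F ≤ n := by
  unfold exCodeg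
  by_cases h : {d | ∃ E : Finset (Finset (Fin n)), IsKGraph k E ∧ ¬ Contains E F ∧
      minCodeg k E = d}.Nonempty
  · apply csSup_le h
    rintro d ⟨E, _, _, rfl⟩
    exact minCodeg_le k E
  · rw [Set.not_nonempty_iff_eq_empty] at h
    rw [h]
    simp

theorem le_exCodeg {W : Type} (k n : ℕ) (F : Finset (Finset W)) (E : Finset (Finset (Fin n)))
    (hE : IsKGraph k E) (hF : ¬ Contains E F) (D : ℕ) (hn : k - 1 ≤ n)
    (hD : ∀ T : Finset (Fin n), T.card = k - 1 → D ≤ codeg E T) : D ≤ exCodeg k n F := by
  have h1 : D ≤ minCodeg k E := by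
    unfold minCodeg
    apply le_csInf
    · obtain ⟨T, _, hT⟩ := exists_subset_card_eq (s := (univ : Finset (Fin n))) (n := k - 1)
        (by simpa using hn)
      exact ⟨_, T, hT, rfl⟩
    · rintro d ⟨T, hT, rfl⟩
      exact hD T hT
  refine h1.trans ?_
  unfold exCodeg
  apply le_csSup
  · refine ⟨n, ?_⟩
    rintro d ⟨E', hE', hF', rfl⟩
    exact minCodeg_le k E'
  · exact ⟨E, hE, hF, rfl⟩

theorem density_large (ε : ℝ) (hε : 0 < ε) : ∃ k₀ : ℕ, 2 ≤ k₀ ∧ ∀ k : ℕ, k₀ ≤ k →
    1 - ε ≤ codegDensity k (complete (k + 1) k) := by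
  obtain ⟨l, hl⟩ := exists_nat_gt (8 / ε)
  have hl0 : 0 < l := by
    have : (0 : ℝ) < l := lt_trans (by positivity) hl
    exact_mod_cast this
  obtain ⟨k₀, hk2, hk⟩ := exists_graph l hl0
  refine ⟨k₀, hk2, fun k hkk => ?_⟩
  unfold codegDensity
  apply le_limsup_of_frequently_le
  · apply Eventually.frequently
    obtain ⟨N, hN⟩ := exists_nat_gt (2 * ((k : ℝ) + 2) / ε)
    filter_upwards [eventually_ge_atTop (max (max N (k - 1)) 1)] with n hn
    obtain ⟨E, hE1, hE2, hE3⟩ := hk k hkk n
    have hn1 : N ≤ n := by omega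
    have hn2 : k - 1 ≤ n := by omega
    have hn3 : 1 ≤ n := by omega
    have hnr : (0 : ℝ) < n := by exact_mod_cast hn3
    have h1 := le_exCodeg k n _ E hE1 hE2 (n - (k + 2 + 4 * (n / l))) hn2 (fun T hT => by
      have := hE3 T hT
      omega)
    rw [le_div_iff₀ hnr]
    have h2 : (n : ℝ) ≤ exCodeg k n (complete (k + 1) k) + (k + 2 + 4 * ((n / l : ℕ) : ℝ)) := by
      have : n ≤ exCodeg k n (complete (k + 1) k) + (k + 2 + 4 * (n / l)) := by omega
      exact_mod_cast this
    have h3 : ((n / l : ℕ) : ℝ) ≤ n / l := Nat.cast_div_le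
    have h4 : 4 * ((n : ℝ) / l) ≤ ε * n / 2 := by
      have hlr : (0 : ℝ) < l := by exact_mod_cast hl0
      rw [div_lt_iff₀ hε] at hl
      rw [← mul_div_assoc, div_le_div_iff₀ hlr (by norm_num)]
      nlinarith
    have h5 : (k : ℝ) + 2 ≤ ε * n / 2 := by
      have h6 : 2 * ((k : ℝ) + 2) / ε < n := lt_of_lt_of_le hN (by exact_mod_cast hn1)
      rw [div_lt_iff₀ hε] at h6
      linarith
    linarith
  · refine ⟨1, ?_⟩
    rw [eventually_map]
    apply Eventually.of_forall
    intro n
    have := exCodeg_le k n (complete (k + 1) k)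
    apply div_le_one_of_le₀
    · exact_mod_cast this
    · positivity

/-- **Q1 is false, in a strong form.** The codegree Turán density `π_{k-1}(K_{k+1}^k)` tends to `1`
as `k → ∞`; in particular it is not `1/2` for every `k`. -/
theorem result :
    (∃ k : ℕ, 2 ≤ k ∧ codegDensity k (complete (k + 1) k) ≠ 1 / 2) ∧
    (∃ k₀ : ℕ, ∀ k : ℕ, k₀ ≤ k → 1 / 2 < codegDensity k (complete (k + 1) k)) ∧
    Tendsto (fun k : ℕ => codegDensity k (complete (k + 1) k)) atTop (nhds 1) := by
  have hle : ∀ k, codegDensity k (complete (k + 1) k) ≤ 1 := by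
    intro k
    unfold codegDensity
    have h0 : ∀ n : ℕ, (exCodeg k n (complete (k + 1) k) : ℝ) / n ≤ 1 := by
      intro n
      have := exCodeg_le k n (complete (k + 1) k)
      apply div_le_one_of_le₀
      · exact_mod_cast this
      · positivity
    apply limsup_le_of_le
    · refine ⟨0, ?_⟩
      intro a ha
      rw [eventually_map] at ha
      obtain ⟨n, hn⟩ := ha.exists
      exact le_trans (by positivity) hn
    · exact Eventually.of_forall h0
  refine ⟨?_, ?_, ?_⟩
  · obtain ⟨k₀, hk2, hk⟩ := density_large (1 / 4) (by norm_num)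
    refine ⟨k₀, hk2, ?_⟩
    have := hk k₀ le_rfl
    intro h
    rw [h] at this
    norm_num at this
  · obtain ⟨k₀, _, hk⟩ := density_large (1 / 4) (by norm_num)
    refine ⟨k₀, fun k hkk => ?_⟩
    have := hk k hkk
    linarith
  · rw [tendsto_order]
    constructor
    · intro a ha
      obtain ⟨k₀, _, hk⟩ := density_large ((1 - a) / 2) (by linarith)
      filter_upwards [eventually_ge_atTop k₀] with k hkk
      have := hk k hkk
      linarith
    · intro a ha
      exact Eventually.of_forall fun k => lt_of_le_of_lt (hle k) ha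

end Pool.Agent.Results.MP_af2786_co.DensityTendsToOne
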